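import Mathlib
import Pool.Agent.H66.LieNil

set_option autoImplicit false

universe u

/-- The monomial `X^(n-1) Y^(n-1)` of degree `2n-2` is not in the two-sided ideal generated by the
`n`-th powers of the elements of the Lie subalgebra generated by `X` and `Y`. -/
theorem Pool.Agent.Results.MP_776ebc_al.NonzeroMonomial.result
    (K : Type u) [Field K] (n : ℕ) (hn : 1 ≤ n) (hK : ∀ k : ℕ, 0 < k → k < n → (k : K) ≠ 0) :
    FreeAlgebra.ι K (0 : Fin 2) ^ (n - 1) * FreeAlgebra.ι K (1 : Fin 2) ^ (n - 1) ∉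
      TwoSidedIdeal.span ((fun U => U ^ n) ''
        ((sInf {S : Submodule K (FreeAlgebra K (Fin 2)) |
          FreeAlgebra.ι K (0 : Fin 2) ∈ S ∧ FreeAlgebra.ι K (1 : Fin 2) ∈ S ∧
            ∀ a ∈ S, ∀ b ∈ S, a * b - b * a ∈ S} : Submodule K (FreeAlgebra K (Fin 2))) :
          Set (FreeAlgebra K (Fin 2)))) := by
  obtain ⟨m, rfl⟩ : ∃ m, n = m + 1 := ⟨n - 1, by omega⟩
  obtain ⟨B, _, _, S, x, y, hx, hy, hS, hU, hxy⟩ :=
    Pool.Agent.H66.LieNil.exists_rep K m fun k h1 h2 => hK k h1 (by omega)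
  let f : FreeAlgebra K (Fin 2) →ₐ[K] B := FreeAlgebra.lift K ![x, y]
  intro h
  have hle := (TwoSidedIdeal.span_le (I := TwoSidedIdeal.ker f)).2 ?_ h
  · rw [TwoSidedIdeal.mem_ker] at hle
    simp [f] at hle
    exact hxy hle
  · rintro _ ⟨U, hU', rfl⟩
    have : U ∈ S.comap f.toLinearMap := by
      refine (Submodule.mem_sInf.1 hU') _ ⟨by simpa [f] using hx, by simpa [f] using hy, ?_⟩
      intro a ha b hb
      simpa using hS _ ha _ hb
    simpa [TwoSidedIdeal.mem_ker] using hU _ this
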